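import Pool.Agent.Helper45.PQ.Lift

set_option autoImplicit false

namespace Pool.Agent.Helper45.PQ.M1

open Finset Pool.Agent.Helper42.PQ

theorem main : S_M1 := by
  intro N K α β _ _ _ _ x ρ κ hN hM hK hB v w hvw hρ hκ
  obtain ⟨h1, h2, h3⟩ := hB
  apply h3
  -- the smaller family
  let π : α → {u : α // u ≠ w} := fun u => if h : u = w then ⟨v, hvw⟩ else ⟨u, h⟩
  let x' : {u : α // u ≠ w} → ℕ := fun u' => ∑ u ∈ univ.filter (fun u => π u = u'), x u
  have hsum : ∀ (σ : {u : α // u ≠ w} → β) (j : β),
      ∑ u' ∈ univ.filter (fun u' => σ u' = j), x' u' =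
        ∑ u ∈ univ.filter (fun u => σ (π u) = j), x u := by
    intro σ j
    have := Finset.sum_fiberwise_of_maps_to (s := univ.filter (fun u => σ (π u) = j))
      (t := univ.filter (fun u' => σ u' = j)) (g := π) (by
        intro u hu
        simpa using hu) x
    rw [← this]
    apply Finset.sum_congr rfl
    intro u' hu'
    apply Finset.sum_congr _ (fun _ _ => rfl)
    ext u
    simp only [mem_filter, mem_univ, true_and] at hu' ⊢
    constructor
    · intro h
      exact ⟨by rw [h]; exact hu', h⟩
    · exact fun h => h.2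
  have htot : ∑ u', x' u' = ∑ u, x u := by
    have := Finset.sum_fiberwise (s := (univ : Finset α)) π x
    exact this
  have hIs : ∀ σ : {u : α // u ≠ w} → β, IsDv N x' σ ↔ IsDv N x (fun u => σ (π u)) := by
    intro σ
    unfold IsDv
    apply forall_congr'
    intro j
    rw [hsum]
  have hπρ : (fun u => (fun u' : {u : α // u ≠ w} => ρ u'.1) (π u)) = ρ := by
    funext u
    by_cases h : u = w
    · simp only [π, h, dite_true]
      exact hρ
    · simp only [π, h, dite_false]
  have hπκ : (fun u => (fun u' : {u : α // u ≠ w} => κ u'.1) (π u)) = κ := by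
    funext u
    by_cases h : u = w
    · simp only [π, h, dite_true]
      exact hκ
    · simp only [π, h, dite_false]
  have hcard : Fintype.card {u : α // u ≠ w} < Fintype.card α :=
    Fintype.card_subtype_lt (x := w) (by simp)
  have hD := hM {u : α // u ≠ w} β x' (fun u' => ρ u'.1) (fun u' => κ u'.1) hcard
    ((hIs _).mpr (by rw [hπρ]; exact h1)) ((hIs _).mpr (by rw [hπκ]; exact h2))
    (by rw [htot]; exact hK)
  have := Lift.DCn_lift (x := x) (fun σ u => σ (π u)) (fun b => b) (fun σ h => (hIs σ).mp h)
    (by
      intro σ σ' a b h u _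
      exact h (π u) trivial) hD
  rw [hπρ, hπκ] at this
  exact this

end Pool.Agent.Helper45.PQ.M1
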