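import Pool.Agent.Helper45.PQ.Lift

set_option autoImplicit false

namespace Pool.Agent.Helper45.PQ.M2

open Finset Pool.Agent.Helper42.PQ

theorem main : S_M2 := by
  intro N K α β _ _ _ _ x ρ κ hN hM hK hB v hv
  obtain ⟨h1, h2, h3⟩ := hB
  apply h3
  let ext : β → ({u : α // u ≠ v} → β) → (α → β) := fun b σ u =>
    if h : u = v then b else σ ⟨u, h⟩
  have extv : ∀ (b : β) (σ : {u : α // u ≠ v} → β), ext b σ v = b := by
    intro b σ
    simp only [ext, dite_true]
  have extn : ∀ (b : β) (σ : {u : α // u ≠ v} → β) (u : α) (hu : u ≠ v), ext b σ u = σ ⟨u, hu⟩ := by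
    intro b σ u hu
    simp only [ext, hu, dite_false]
  have hsum : ∀ (b : β) (σ : {u : α // u ≠ v} → β) (j : β),
      ∑ u ∈ univ.filter (fun u => ext b σ u = j), x u =
        ∑ u' ∈ univ.filter (fun u' => σ u' = j), x u'.1 + (if b = j then x v else 0) := by
    intro b σ j
    rw [Finset.sum_filter, Finset.sum_filter]
    rw [← Finset.add_sum_erase univ _ (mem_univ v)]
    rw [add_comm]
    congr 1
    · have : (univ.erase v : Finset α) = univ.filter (fun u => u ≠ v) := by
        ext u; simp
      rw [this]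
      rw [← Finset.sum_subtype_of_mem (p := fun u => u ≠ v)
        (fun a => if ext b σ a = j then x a else 0) (by intro u hu; simpa using hu)]
      have h4 : (univ.filter (fun u => u ≠ v)).subtype (fun u => u ≠ v) = univ := by
        ext u
        simp [u.2]
      rw [h4]
      apply Finset.sum_congr rfl
      intro u' _
      have : ext b σ u'.1 = σ u' := by
        simp only [ext, u'.2, dite_false]
      rw [this]
    · simp only [ext, dite_true]
  have hIs : ∀ b (σ : {u : α // u ≠ v} → β),
      IsDv N (fun u' : {u : α // u ≠ v} => x u'.1) σ ↔ IsDv N x (ext b σ) := by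
    intro b σ
    unfold IsDv
    apply forall_congr'
    intro j
    rw [hsum]
    have h5 : N ∣ (if b = j then x v else 0) := by
      split_ifs
      · exact hv
      · exact dvd_zero _
    rw [add_right_comm]
    exact (Nat.dvd_add_left h5).symm
  have hext : ∀ τ : α → β, ext (τ v) (fun u' => τ u'.1) = τ := by
    intro τ
    funext u
    by_cases h : u = v
    · simp only [ext, h, dite_true]
    · simp only [ext, h, dite_false]
  have hcard : Fintype.card {u : α // u ≠ v} < Fintype.card α :=
    Fintype.card_subtype_lt (x := v) (by simp)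
  have hle : ∑ u' : {u : α // u ≠ v}, x u'.1 ≤ ∑ u, x u := by
    have := Finset.sum_subtype_of_mem (s := univ.filter (fun u => u ≠ v)) (p := fun u => u ≠ v)
        (fun a => x a) (by intro u hu; simpa using hu)
    have h4 : (univ.filter (fun u => u ≠ v)).subtype (fun u => u ≠ v) = univ := by
        ext u
        simp [u.2]
    rw [h4] at this
    rw [this]
    exact Finset.sum_le_sum_of_subset (Finset.filter_subset _ _)
  have hD := hM {u : α // u ≠ v} β (fun u' => x u'.1) (fun u' => ρ u'.1) (fun u' => κ u'.1) hcard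
    ((hIs (ρ v) _).mpr (by rw [hext ρ]; exact h1)) ((hIs (κ v) _).mpr (by rw [hext κ]; exact h2))
    (by omega)
  have h6 := Lift.DCn_lift (x := x) (ext (ρ v)) (fun b => b) (fun σ h => (hIs _ σ).mp h)
    (by
      intro σ σ' a b h u _
      by_cases hu : u = v
      · rw [hu, extv, extv]
        exact ⟨fun _ _ => rfl, fun h => h⟩
      · rw [extn _ _ _ hu, extn _ _ _ hu]
        exact h ⟨u, hu⟩ trivial) hD
  rw [hext ρ] at h6
  have h7 : IsDv N (fun u' : {u : α // u ≠ v} => x u'.1) (fun u' => κ u'.1) :=
    (hIs (κ v) _).mpr (by rw [hext κ]; exact h2)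
  have ht : TwoOn Set.univ (ρ v) (κ v) (ext (ρ v) (fun u' => κ u'.1)) κ := by
    intro u _
    by_cases hu : u = v
    · have e1 : ext (ρ v) (fun u' => κ u'.1) u = ρ v := by rw [hu]; exact extv (ρ v) (fun u' => κ u'.1)
      rw [e1]
      exact ⟨fun h => absurd rfl h, fun _ => Or.inr (by rw [hu])⟩
    · have e1 : ext (ρ v) (fun u' => κ u'.1) u = κ u := extn (ρ v) (fun u' => κ u'.1) u hu
      rw [e1]
      exact ⟨fun _ _ => rfl, fun h => h⟩
  exact h6.trans (DCn.step ⟨(hIs (ρ v) _).mp h7, h2, ρ v, κ v, ht⟩)

end Pool.Agent.Helper45.PQ.M2
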