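import Pool.Agent.Helper45.PQ.Lift

set_option autoImplicit false

namespace Pool.Agent.Helper45.PQ.M3

open Finset Pool.Agent.Helper42.PQ

theorem main : S_M3 := by
  intro N K α β _ _ _ _ x ρ κ hN hM hK hB a b
  by_contra hab
  push Not at hab
  obtain ⟨h1, h2, h3⟩ := hB
  apply h3
  -- relabel κ
  let κ₂ : α → β := fun v => Equiv.swap a b (κ v)
  have hκ₂ : IsDv N x κ₂ := by
    intro j
    have : univ.filter (fun v => κ₂ v = j) = univ.filter (fun v => κ v = Equiv.swap a b j) := by
      ext v
      simp only [mem_filter, mem_univ, true_and, κ₂]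
      constructor
      · intro h
        rw [← h, Equiv.swap_apply_self]
      · intro h
        rw [h, Equiv.swap_apply_self]
    rw [this]
    exact h2 _
  have hstep : DCn N x κ₂ κ := by
    apply DCn.symm
    refine DCn.step ⟨h2, hκ₂, a, b, ?_⟩
    intro v _
    constructor
    · intro ha hb
      exact Equiv.swap_apply_of_ne_of_ne ha hb
    · rintro (h | h)
      · right
        simp only [κ₂, h, Equiv.swap_apply_left]
      · left
        simp only [κ₂, h, Equiv.swap_apply_right]
  refine DCn.trans ?_ hstep
  have hcl : ∀ v, ρ v = a ↔ κ₂ v = a := by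
    intro v
    rw [hab v]
    simp only [κ₂]
    constructor
    · intro h
      rw [h, Equiv.swap_apply_right]
    · intro h
      have := congrArg (Equiv.swap a b) h
      rwa [Equiv.swap_apply_self, Equiv.swap_apply_left] at this
  -- the class is nonempty
  obtain ⟨v₀, hv₀⟩ : ∃ v, ρ v = a := by
    by_contra hc
    push Not at hc
    have h4 := h1 a
    rw [Finset.filter_false_of_mem (fun v _ => hc v)] at h4
    simp only [sum_empty, zero_add, Nat.dvd_one] at h4
    omega
  let A' : Type := {v : α // ρ v ≠ a}
  let B' : Type := {c : β // c ≠ a}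
  let up : (A' → B') → (α → β) := fun σ v => if h : ρ v ≠ a then (σ ⟨v, h⟩).1 else a
  have hupA : ∀ (σ : A' → B') (v : α) (h : ρ v ≠ a), up σ v = (σ ⟨v, h⟩).1 := by
    intro σ v h
    simp only [up, h, dite_true, ne_eq, not_false_eq_true]
  have hupa : ∀ (σ : A' → B') (v : α), ρ v = a → up σ v = a := by
    intro σ v h
    simp only [up, h, ne_eq, not_true_eq_false, dite_false]
  have hup_iff : ∀ (σ : A' → B') (v : α), up σ v = a ↔ ρ v = a := by
    intro σ v
    constructor
    · intro h
      by_contra hc
      rw [hupA σ v hc] at h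
      exact (σ ⟨v, hc⟩).2 h
    · exact hupa σ v
  have hsum : ∀ (σ : A' → B') (c : B'),
      ∑ v ∈ univ.filter (fun v => up σ v = c.1), x v =
        ∑ v' ∈ univ.filter (fun v' => σ v' = c), x v'.1 := by
    intro σ c
    have h7 : ∀ v ∈ univ.filter (fun v => up σ v = c.1), ρ v ≠ a := by
      intro v hv hc
      rw [mem_filter] at hv
      rw [hupa σ v hc] at hv
      exact c.2 hv.2.symm
    rw [← Finset.sum_subtype_of_mem (p := fun v => ρ v ≠ a) x h7]
    apply Finset.sum_congr _ (fun _ _ => rfl)
    ext v'
    rw [mem_subtype, mem_filter, mem_filter, hupA σ v'.1 v'.2]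
    simp only [mem_univ, true_and]
    exact ⟨fun h => Subtype.ext h, fun h => congrArg _ h⟩
  have hI : ∀ σ : A' → B', IsDv N (fun v' : A' => x v'.1) σ ↔ IsDv N x (up σ) := by
    intro σ
    constructor
    · intro h j
      by_cases hj : j = a
      · subst hj
        have : univ.filter (fun v => up σ v = j) = univ.filter (fun v => ρ v = j) := by
          ext v
          simp only [mem_filter, mem_univ, true_and]
          exact hup_iff σ v
        rw [this]
        exact h1 j
      · have := h ⟨j, hj⟩
        rw [← hsum] at this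
        exact this
    · intro h c
      have := h c.1
      rw [hsum] at this
      exact this
  let down : (τ : α → β) → (∀ v, ρ v = a ↔ τ v = a) → (A' → B') :=
    fun τ h v' => ⟨τ v'.1, fun hc => v'.2 ((h v'.1).mpr hc)⟩
  have hdown : ∀ (τ : α → β) (h : ∀ v, ρ v = a ↔ τ v = a), up (down τ h) = τ := by
    intro τ h
    funext v
    by_cases hv : ρ v = a
    · rw [hupa _ v hv, (h v).mp hv]
    · rw [hupA _ v hv]
  have hcard : Fintype.card A' < Fintype.card α :=
    Fintype.card_subtype_lt (x := v₀) (by simpa using hv₀)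
  have hcardB : Fintype.card B' ≤ Fintype.card β := Fintype.card_subtype_le _
  have hle : ∑ v' : A', x v'.1 ≤ ∑ v, x v := by
    have := Finset.sum_subtype_of_mem (s := univ.filter (fun v => ρ v ≠ a)) (p := fun v => ρ v ≠ a)
        (fun v => x v) (by intro u hu; simpa using hu)
    have h4 : (univ.filter (fun v => ρ v ≠ a)).subtype (fun v => ρ v ≠ a) = univ := by
        ext u
        simp [u.2]
    rw [h4] at this
    change ∑ v' : {v : α // ρ v ≠ a}, x v'.1 ≤ _
    rw [this]
    exact Finset.sum_le_sum_of_subset (Finset.filter_subset _ _)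
  have hrr : ∀ v, ρ v = a ↔ ρ v = a := fun _ => Iff.rfl
  have hD := hM A' B' (fun v' => x v'.1) (down ρ hrr) (down κ₂ hcl) hcard
    ((hI _).mpr (by rw [hdown ρ hrr]; exact h1)) ((hI _).mpr (by rw [hdown κ₂ hcl]; exact hκ₂))
    (by omega)
  have h6 := Lift.DCn_lift (x := x) up (fun c => c.1) (fun σ h => (hI σ).mp h)
    (by
      intro σ σ' c d h v _
      by_cases hv : ρ v = a
      · rw [hupa _ v hv, hupa _ v hv]
        exact ⟨fun _ _ => rfl, fun h => h⟩
      · rw [hupA _ v hv, hupA _ v hv]
        obtain ⟨h8, h9⟩ := h ⟨v, hv⟩ trivial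
        constructor
        · intro hc hd
          rw [h8 (fun h => hc (congrArg _ h)) (fun h => hd (congrArg _ h))]
        · rintro (hc | hd)
          · rcases h9 (Or.inl (Subtype.ext hc)) with h | h
            · exact Or.inl (congrArg _ h)
            · exact Or.inr (congrArg _ h)
          · rcases h9 (Or.inr (Subtype.ext hd)) with h | h
            · exact Or.inl (congrArg _ h)
            · exact Or.inr (congrArg _ h)) hD
  rw [hdown ρ hrr, hdown κ₂ hcl] at h6
  exact h6

end Pool.Agent.Helper45.PQ.M3
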