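import Pool.Agent.Helper42.PQ.Spec
import Pool.Agent.Helper42.PQ.Base

set_option autoImplicit false

namespace Pool.Agent.Helper45.PQ.Lift

open Finset Pool.Agent.Helper42.PQ

/-- lifting a walk of divisions along a map -/
lemma DCn_lift {α β α' β' : Type} [Fintype α] [DecidableEq β] [Fintype α'] [DecidableEq β']
    {N : ℕ} {x : α → ℕ} {x' : α' → ℕ} (f : (α' → β') → (α → β)) (g : β' → β)
    (hI : ∀ σ, IsDv N x' σ → IsDv N x (f σ))
    (hT : ∀ σ σ' a b, TwoOn Set.univ a b σ σ' → TwoOn Set.univ (g a) (g b) (f σ) (f σ'))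
    {ρ κ : α' → β'} (h : DCn N x' ρ κ) : DCn N x (f ρ) (f κ) := by
  unfold DCn at h
  induction h with
  | rel a b h =>
    obtain ⟨h1, h2, c, d, h3⟩ := h
    exact DCn.step ⟨hI _ h1, hI _ h2, g c, g d, hT _ _ _ _ h3⟩
  | refl a => exact DCn.refl _
  | symm a b _ ih => exact ih.symm
  | trans a b c _ _ ih1 ih2 => exact ih1.trans ih2

end Pool.Agent.Helper45.PQ.Lift
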